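import Pool.Agent.T2h33.RG.Fin

/-!
# A continuous martingale which is a semimartingale, but not a regular one, in a larger filtration

`W` is a Brownian motion for the filtration `F`, `M_t = exp (W_t - t / 2)`, `K_t = sup_{u ≥ t} M_u` and
`G_t = F_t ∨ σ(K_t)`.  Then `M = N + A`, where `A_t = ∫_0^t M_u du - 2 (K_0 - K_t)` and
`N = M - A` is a martingale for `G`.  The process `K` decreases only at the times `t` with `K_t = M_t`, a
set of Lebesgue measure zero, so `A` is not absolutely continuous with respect to
`[M, M]_t = ∫_0^t M_u ^ 2 du`.  The decomposition is unique, so `M` is not a regular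
semimartingale for `G`.

Everything is proved from Mathlib.  The identities for `N` are obtained without
stochastic integrals, by telescoping over finite grids, from Doob's maximal identity
`P(K_t > x | F_t) = min (1, M_t / x)`.  Parts of the formal proof were written by helper38, helper46, helper47,
helper59, helper60, helper85, helper97 and helper33; the uniqueness of the decomposition uses
the files of project SK (`Helper41`).
-/

set_option autoImplicit false

open MeasureTheory ProbabilityTheory Filter Topology Set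
open scoped NNReal

namespace Pool.Agent.Results.MP_e3daee_pr.NotRegular

variable {Ω : Type} {mΩ : MeasurableSpace Ω}

/-- `N` is a continuous local martingale with respect to the filtration `G`: it is continuous and
adapted, and there are stopping times `τ n`, almost surely nondecreasing and tending to infinity,
such that all `N (min t (τ n)) - N 0` are martingales. -/
structure ContLocMart (P : Measure Ω) (G : Filtration ℝ≥0 mΩ) (N : ℝ≥0 → Ω → ℝ) : Prop where
  adapted : ∀ t, Measurable[G t] (N t)
  cont : ∀ ω, Continuous fun t => N t ω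
  loc : ∃ τ : ℕ → Ω → WithTop ℝ≥0, IsLocalizingSequence G τ P ∧
    ∀ n, Martingale (fun t ω => stoppedProcess N (τ n) t ω - N 0 ω) G P

/-- `X = N + A` is a decomposition of `X` as a continuous semimartingale with respect to the
filtration `G`: `N` is a continuous local martingale and `A` is continuous, adapted, started at `0`,
with paths of finite variation on compact intervals. -/
structure Decomposition (P : Measure Ω) (G : Filtration ℝ≥0 mΩ) (X N A : ℝ≥0 → Ω → ℝ) : Prop where
  mart : ContLocMart P G N
  adapted : ∀ t, Measurable[G t] (A t)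
  cont : ∀ ω, Continuous fun t => A t ω
  fvar : ∀ ω, ∀ T : ℝ≥0, BoundedVariationOn (fun t => A t ω) (Icc 0 T)
  zero : ∀ ω, A 0 ω = 0
  eq : ∀ t ω, X t ω = N t ω + A t ω

/-- The function `a` is absolutely continuous with respect to the nondecreasing function `q`: on
each compact interval `[0, T]` and for every `ε > 0` there is `δ > 0` such that
`∑ |a (y i) - a (x i)| < ε` for all finite families of disjoint intervals `(x i, y i)` in `[0, T]`
with `∑ (q (y i) - q (x i)) < δ`. -/
def AbsCont (a q : ℝ≥0 → ℝ) : Prop :=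
  ∀ T : ℝ≥0, ∀ ε : ℝ, 0 < ε → ∃ δ : ℝ, 0 < δ ∧ ∀ (n : ℕ) (x y : Fin n → ℝ≥0),
    (∀ i, x i ≤ y i ∧ y i ≤ T) → (∀ i j, i ≠ j → Disjoint (Ioo (x i) (y i)) (Ioo (x j) (y j))) →
    ∑ i, (q (y i) - q (x i)) < δ → ∑ i, |a (y i) - a (x i)| < ε

/-- `Q` is the quadratic variation of the continuous square integrable martingale `M`: it is
continuous and nondecreasing, starts at `0`, and `M ^ 2 - Q` is a martingale. -/
structure QuadVar (P : Measure Ω) (F : Filtration ℝ≥0 mΩ) (M Q : ℝ≥0 → Ω → ℝ) : Prop where
  cont : ∀ ω, Continuous fun t => Q t ω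
  mono : ∀ ω, Monotone fun t => Q t ω
  zero : ∀ ω, Q 0 ω = 0
  mart : Martingale (fun t ω => M t ω ^ 2 - Q t ω) F P

/-- There are filtrations `F ≤ G` on a complete probability space, with all null sets in `F 0`, and a
continuous martingale `M` for `F` with quadratic variation `Q` such that `M` is a continuous semimartingale for `G`
(its martingale part is even a martingale), and, for every decomposition
`M = N + A` for `G`, almost all paths of `A` are not absolutely continuous with
respect to `Q`. -/
theorem result : ∃ (Ω : Type) (mΩ : MeasurableSpace Ω) (P : Measure Ω), IsProbabilityMeasure P ∧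
    P.IsComplete ∧ ∃ (F G : Filtration ℝ≥0 mΩ) (M Q : ℝ≥0 → Ω → ℝ),
      (∀ t, F t ≤ G t) ∧ (∀ B : Set Ω, P B = 0 → MeasurableSet[F 0] B) ∧
      Martingale M F P ∧ (∀ ω, Continuous fun t => M t ω) ∧ QuadVar P F M Q ∧
      (∃ N A : ℝ≥0 → Ω → ℝ, Martingale N G P ∧ Decomposition P G M N A) ∧
      ∀ N A : ℝ≥0 → Ω → ℝ, Decomposition P G M N A →
        ∀ᵐ ω ∂P, ¬ AbsCont (fun t => A t ω) (fun t => Q t ω) := by
  obtain ⟨Ω, mΩ, P, hP, hc, F, G, M, Q, h1, h2, h3, h4, h5, h6, ⟨N, A, h7, h8⟩, h9⟩ :=
    Pool.Agent.T2h33.RG.finU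
  refine ⟨Ω, mΩ, P, hP, hc, F, G, M, Q, h1, h2, h3, h4,
    ⟨fun ω => (h6 ω).1, fun ω => (h6 ω).2.1, fun ω => (h6 ω).2.2, h5⟩,
    ⟨N, A, h7, ⟨⟨h8.mart.adapted, h8.mart.cont, h8.mart.loc⟩, h8.adapted, h8.cont, h8.fvar,
      h8.zero, h8.eq⟩⟩, fun N A h => ?_⟩
  exact h9 N A ⟨⟨h.mart.adapted, h.mart.cont, h.mart.loc⟩, h.adapted, h.cont, h.fvar, h.zero, h.eq⟩

end Pool.Agent.Results.MP_e3daee_pr.NotRegular
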